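import Mathlib

/-!
# MP_2eb2b4_co: L-hitting numbers of initial segments of the 2-3 grid

We disprove `f_n = h_n` : for `n = 45` the set
`{3,4,18,24,32,81,108,144,192,384,486,512,648,864}` of size 14 meets every L-configuration in
`A_45`, while `h_45 = 15`.
-/

namespace Pool.Agent.Results.MP_2eb2b4_co.FailsAt45

open Finset

/-- membership in `A = {2^i 3^j}` -/
def Smooth (m : ℕ) : Prop := ∃ i j : ℕ, m = 2 ^ i * 3 ^ j

/-- `a k` is the `k`-th element (`k ≥ 1`) of `A` in increasing order. -/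
noncomputable def a (k : ℕ) : ℕ := Nat.nth Smooth (k - 1)

/-- `A_n = {a_1, …, a_n}` -/
noncomputable def A (n : ℕ) : Finset ℕ := (Finset.Icc 1 n).image a

/-- The L-configuration with corner `2^i 3^j`. -/
def Lconf (i j : ℕ) : Finset ℕ := {2 ^ i * 3 ^ j, 2 ^ (i + 1) * 3 ^ j, 2 ^ i * 3 ^ (j + 1)}

/-- `H ⊆ A_n` meets every L-configuration contained in `A_n`. -/
def Hits (n : ℕ) (H : Finset ℕ) : Prop :=
  H ⊆ A n ∧ ∀ i j : ℕ, Lconf i j ⊆ A n → (H ∩ Lconf i j).Nonempty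

/-- the L-hitting number `f_n` -/
noncomputable def f (n : ℕ) : ℕ := sInf {s | ∃ H : Finset ℕ, Hits n H ∧ H.card = s}

open Classical in
/-- `B_{n,k}` -/
noncomputable def B (n k : ℕ) : Finset ℕ :=
  (A n).filter (fun m => ∃ i j : ℕ, m = 2 ^ i * 3 ^ j ∧ (i : ℤ) - (j : ℤ) ≡ (k : ℤ) [ZMOD 3])

open Classical in
/-- `B̃_{n,k}` : powers of two `2^i ∈ A_n`, `i ≥ 1`, `i ≡ k (mod 3)`, `2^{i-1}·3 ∉ A_n`. -/
noncomputable def Bt (n k : ℕ) : Finset ℕ :=
  (A n).filter (fun m => ∃ i : ℕ, 1 ≤ i ∧ m = 2 ^ i ∧ i ≡ k [MOD 3] ∧ 2 ^ (i - 1) * 3 ∉ A n)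

/-- `h_n = min_k (|B_{n,k}| - |B̃_{n,k}|)` (as `B̃_{n,k} ⊆ B_{n,k}`, see `Bt_subset_B`, the
truncated subtraction is the true one). -/
noncomputable def h (n : ℕ) : ℕ :=
  min (min ((B n 0).card - (Bt n 0).card) ((B n 1).card - (Bt n 1).card))
    ((B n 2).card - (Bt n 2).card)

theorem Bt_subset_B (n k : ℕ) : Bt n k ⊆ B n k := by
  classical
  intro m hm
  simp only [Bt, B, Finset.mem_filter] at hm ⊢
  obtain ⟨hA, i, -, rfl, hi, -⟩ := hm
  refine ⟨hA, i, 0, by simp, ?_⟩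
  have := (Int.natCast_modEq_iff).mpr hi
  simpa using this

/-! ### Computation of `A_45` -/

/-- explicit candidate for the index set -/
def P : Finset (ℕ × ℕ) := (Finset.range 11 ×ˢ Finset.range 7).filter (fun p => 2 ^ p.1 * 3 ^ p.2 < 1537)

def S : Finset ℕ := P.image (fun p => 2 ^ p.1 * 3 ^ p.2)

theorem S_card : S.card = 45 := by decide +kernel

theorem lt_bounds {i j : ℕ} (hm : 2 ^ i * 3 ^ j < 1537) : i < 11 ∧ j < 7 := by
  have h2 : 0 < 2 ^ i := by positivity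
  have h3 : 0 < 3 ^ j := by positivity
  constructor
  · by_contra hi
    have : 2 ^ 11 ≤ 2 ^ i := Nat.pow_le_pow_right (by norm_num) (by omega)
    nlinarith
  · by_contra hj
    have : 3 ^ 7 ≤ 3 ^ j := Nat.pow_le_pow_right (by norm_num) (by omega)
    nlinarith

theorem mem_P {i j : ℕ} : (i, j) ∈ P ↔ 2 ^ i * 3 ^ j < 1537 := by
  simp only [P, Finset.mem_filter, Finset.mem_product, Finset.mem_range]
  constructor
  · exact fun h => h.2
  · exact fun h => ⟨lt_bounds h, h⟩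

theorem mem_S {m : ℕ} : m ∈ S ↔ Smooth m ∧ m < 1537 := by
  simp only [S, Finset.mem_image, Prod.exists]
  constructor
  · rintro ⟨i, j, hij, rfl⟩
    exact ⟨⟨i, j, rfl⟩, mem_P.mp hij⟩
  · rintro ⟨⟨i, j, rfl⟩, hm⟩
    exact ⟨i, j, mem_P.mpr hm, rfl⟩

theorem filter_eq (N : ℕ) (hN : N = 1537) [DecidablePred Smooth] :
    (Finset.range N).filter Smooth = S := by
  ext m
  rw [Finset.mem_filter, Finset.mem_range, mem_S, hN]
  exact and_comm

theorem count_eq' (N : ℕ) (hN : N = 1537) [DecidablePred Smooth] : Nat.count Smooth N = 45 := by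
  rw [Nat.count_eq_card_filter_range, filter_eq N hN, S_card]

theorem count_eq [DecidablePred Smooth] : Nat.count Smooth 1537 = 45 := count_eq' 1537 rfl

theorem A_eq : A 45 = S := by
  classical
  ext m
  simp only [A, Finset.mem_image, Finset.mem_Icc, mem_S]
  constructor
  · rintro ⟨k, ⟨hk1, hk2⟩, rfl⟩
    have hlt : k - 1 < Nat.count Smooth 1537 := by rw [count_eq]; omega
    refine ⟨?_, Nat.nth_lt_of_lt_count hlt⟩
    refine Nat.nth_mem_of_infinite ?_ _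
    refine Set.infinite_of_injective_forall_mem (f := fun i : ℕ => 2 ^ i) ?_ ?_
    · exact Nat.pow_right_injective (le_refl 2)
    · intro i
      exact ⟨i, 0, by simp⟩
  · rintro ⟨hm, hlt⟩
    refine ⟨Nat.count Smooth m + 1, ⟨by omega, ?_⟩, ?_⟩
    · have := Nat.count_strict_mono hm hlt
      rw [count_eq] at this
      omega
    · simp only [a, Nat.add_sub_cancel]
      exact Nat.nth_count hm

/-! ### The hitting set -/

def H0 : Finset ℕ := {3, 4, 18, 24, 32, 81, 108, 144, 192, 384, 486, 512, 648, 864}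

theorem H0_card : H0.card = 14 := by decide +kernel

theorem H0_hits : Hits 45 H0 := by
  rw [Hits, A_eq]
  refine ⟨by decide +kernel, ?_⟩
  intro i j hij
  have h1 : 2 ^ i * 3 ^ j ∈ S := hij (by simp [Lconf])
  obtain ⟨hi, hj⟩ := lt_bounds (mem_S.mp h1).2
  have key : ∀ i < 11, ∀ j < 7, Lconf i j ⊆ S → (H0 ∩ Lconf i j).Nonempty := by
    decide +kernel
  exact key i hi j hj hij

theorem f_le : f 45 ≤ 14 := Nat.sInf_le ⟨H0, H0_hits, H0_card⟩

/-! ### The value of `h_45` -/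

theorem B_card (k : ℕ) (hk : k < 3) : (B 45 k).card = 15 := by
  classical
  have hB : B 45 k = ((P.filter (fun p => ((p.1 : ℤ) - (p.2 : ℤ) - (k : ℤ)) % 3 = 0)).image
      (fun p => 2 ^ p.1 * 3 ^ p.2)) := by
    ext m
    simp only [B, A_eq, Finset.mem_filter, Finset.mem_image, Prod.exists, mem_S]
    constructor
    · rintro ⟨⟨-, hm⟩, i, j, rfl, hij⟩
      refine ⟨i, j, ⟨mem_P.mpr hm, ?_⟩, rfl⟩
      exact Int.emod_eq_zero_of_dvd (hij.symm.dvd)
    · rintro ⟨i, j, ⟨hP, hij⟩, rfl⟩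
      refine ⟨⟨⟨i, j, rfl⟩, mem_P.mp hP⟩, i, j, rfl, ?_⟩
      exact (Int.modEq_iff_dvd.mpr (Int.dvd_of_emod_eq_zero hij)).symm
  rw [hB]
  interval_cases k <;> decide +kernel

theorem Bt_empty (k : ℕ) : Bt 45 k = ∅ := by
  classical
  rw [Bt, Finset.filter_eq_empty_iff]
  rintro m hm ⟨i, hi, rfl, -, hnot⟩
  rw [A_eq, mem_S] at hm hnot
  have hi11 : i < 11 := (lt_bounds (i := i) (j := 0) (by simpa using hm.2)).1
  apply hnot
  refine ⟨⟨i - 1, 1, by simp⟩, ?_⟩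
  have : 2 ^ (i - 1) ≤ 2 ^ 9 := Nat.pow_le_pow_right (by norm_num) (by omega)
  omega

theorem h_eq : h 45 = 15 := by
  simp [h, B_card, Bt_empty]

/-- **Negative answer to Q1.**  `f_45 ≤ 14 < 15 = h_45`; hence `f_n = h_n` fails for `n = 45`. -/
theorem result :
    (f 45 ≤ 14 ∧ h 45 = 15) ∧ ¬ (∀ n : ℕ, 1 ≤ n → f n = h n) := by
  refine ⟨⟨f_le, h_eq⟩, fun hall => ?_⟩
  have h1 := hall 45 (by norm_num)
  have h2 := f_le
  have h3 := h_eq
  omega

end Pool.Agent.Results.MP_2eb2b4_co.FailsAt45
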